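import Mathlib

/-!
# 3-colourings without two points at a distance in `A`  (helper file for MP_cad6ee_co)

If `f : ℤ → Fin 3` has `f (x + d) ≠ f x` for all `x` and all `d ∈ D`, then there is a real `β` with
`‖d β‖ ≥ 1/3` for all `d ∈ D`.

`ph F d x ∈ {1, 2}` is the lift of `F (x + d) - F x mod 3`. The two ways around the parallelogram
`x, x + d, x + d + e, x + e` have sums in `[2, 4]` which are congruent modulo 3, hence equal.
-/

set_option autoImplicit false

namespace Pool.Agent.H19.LargeThree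

open Finset Filter

/-- lift of the difference of colours -/
def ph (F : ℤ → Fin 3) (d x : ℤ) : ℤ := (((F (x + d)).val : ℤ) - ((F x).val : ℤ)) % 3

lemma ph_mod (F : ℤ → Fin 3) (d x : ℤ) :
    (3 : ℤ) ∣ ph F d x - (((F (x + d)).val : ℤ) - ((F x).val : ℤ)) := by
  unfold ph
  omega

lemma ph_bounds (F : ℤ → Fin 3) (d x : ℤ) (h : F (x + d) ≠ F x) :
    1 ≤ ph F d x ∧ ph F d x ≤ 2 := by
  unfold ph
  have h1 := (F (x + d)).isLt
  have h2 := (F x).isLt
  have h3 : (F (x + d)).val ≠ (F x).val := fun e => h (Fin.ext e)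
  omega

/-- both ways around a parallelogram agree -/
lemma ph_cycle (F : ℤ → Fin 3) (D : Set ℤ) (hF : ∀ d ∈ D, ∀ x, F (x + d) ≠ F x) {d e : ℤ}
    (hd : d ∈ D) (he : e ∈ D) (x : ℤ) :
    ph F d (x + e) - ph F d x = ph F e (x + d) - ph F e x := by
  have a1 := ph_bounds F d (x + e) (hF d hd _)
  have a2 := ph_bounds F d x (hF d hd _)
  have a3 := ph_bounds F e (x + d) (hF e he _)
  have a4 := ph_bounds F e x (hF e he _)
  have b1 := ph_mod F d (x + e)
  have b2 := ph_mod F d x
  have b3 := ph_mod F e (x + d)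
  have b4 := ph_mod F e x
  have e1 : x + e + d = x + d + e := by ring
  rw [e1] at b1
  omega

/-- `n` admits a bounded lift of `F (x + n) - F x` compatible with the lifts for `D` -/
def PP (F : ℤ → Fin 3) (D : Set ℤ) (n : ℤ) : Prop :=
  ∃ b : ℤ → ℤ, (∃ C : ℤ, ∀ x, |b x| ≤ C) ∧
    (∀ x, (3 : ℤ) ∣ b x - (((F (x + n)).val : ℤ) - ((F x).val : ℤ))) ∧
    ∀ d ∈ D, ∀ x, b (x + d) - b x = ph F d (x + n) - ph F d x

lemma PP_mem (F : ℤ → Fin 3) (D : Set ℤ) (hF : ∀ d ∈ D, ∀ x, F (x + d) ≠ F x) {d : ℤ}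
    (hd : d ∈ D) : PP F D d := by
  refine ⟨ph F d, ⟨2, ?_⟩, fun x => ph_mod F d x, fun e he x => ?_⟩
  · intro x
    have := ph_bounds F d x (hF d hd x)
    rw [abs_le]
    omega
  · exact ph_cycle F D hF hd he x

lemma PP_zero (F : ℤ → Fin 3) (D : Set ℤ) : PP F D 0 := by
  refine ⟨fun _ => 0, ⟨0, fun x => by simp⟩, fun x => by simp, fun d _ x => by simp⟩

lemma PP_add (F : ℤ → Fin 3) (D : Set ℤ) {m n : ℤ} (hm : PP F D m) (hn : PP F D n) :
    PP F D (m + n) := by
  obtain ⟨b, ⟨C, hC⟩, h1, h2⟩ := hm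
  obtain ⟨b', ⟨C', hC'⟩, h1', h2'⟩ := hn
  refine ⟨fun x => b x + b' (x + m), ⟨C + C', fun x => ?_⟩, fun x => ?_, fun d hd x => ?_⟩
  · exact le_trans (abs_add_le _ _) (add_le_add (hC x) (hC' _))
  · have a := h1 x
    have a' := h1' (x + m)
    have e : x + m + n = x + (m + n) := by ring
    rw [e] at a'
    have e2 : b x + b' (x + m) - (((F (x + (m + n))).val : ℤ) - ((F x).val : ℤ)) =
      (b x - (((F (x + m)).val : ℤ) - ((F x).val : ℤ))) +
      (b' (x + m) - (((F (x + (m + n))).val : ℤ) - ((F (x + m)).val : ℤ))) := by ring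
    show (3 : ℤ) ∣ b x + b' (x + m) - (((F (x + (m + n))).val : ℤ) - ((F x).val : ℤ))
    rw [e2]
    exact dvd_add a a'
  · have a := h2 d hd x
    have a' := h2' d hd (x + m)
    have e : x + m + n = x + (m + n) := by ring
    have e' : x + m + d = x + d + m := by ring
    rw [e, e'] at a'
    show b (x + d) + b' (x + d + m) - (b x + b' (x + m)) = _
    linarith

lemma PP_neg (F : ℤ → Fin 3) (D : Set ℤ) {n : ℤ} (hn : PP F D n) : PP F D (-n) := by
  obtain ⟨b, ⟨C, hC⟩, h1, h2⟩ := hn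
  refine ⟨fun x => - b (x - n), ⟨C, fun x => ?_⟩, fun x => ?_, fun d hd x => ?_⟩
  · rw [abs_neg]; exact hC _
  · have a := h1 (x - n)
    have e : x - n + n = x := by ring
    rw [e] at a
    have e2 : - b (x - n) - (((F (x + -n)).val : ℤ) - ((F x).val : ℤ)) =
      - (b (x - n) - (((F x).val : ℤ) - ((F (x - n)).val : ℤ))) := by
      rw [← sub_eq_add_neg]; ring
    show (3 : ℤ) ∣ - b (x - n) - (((F (x + -n)).val : ℤ) - ((F x).val : ℤ))
    rw [e2]
    exact (dvd_neg).mpr a
  · have a := h2 d hd (x - n)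
    have e : x - n + n = x := by ring
    have e' : x - n + d = x + d - n := by ring
    rw [e, e'] at a
    show - b (x + d - n) - - b (x - n) = ph F d (x + -n) - ph F d x
    rw [← sub_eq_add_neg x n]
    linarith

/-- the subgroup of the good shifts -/
def PS (F : ℤ → Fin 3) (D : Set ℤ) : AddSubgroup ℤ where
  carrier := {n | PP F D n}
  add_mem' := fun ha hb => PP_add F D ha hb
  zero_mem' := PP_zero F D
  neg_mem' := fun ha => PP_neg F D ha

/-- A bounded sequence has a mean `τ` which is compatible with bounds for all windows. -/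
lemma exists_mean (a : ℕ → ℝ) (C : ℝ) (hC : ∀ i, |a i| ≤ C) :
    ∃ τ : ℝ, ∀ (j : ℕ) (lo hi : ℝ),
      (∀ i, lo ≤ ∑ t ∈ range j, a (i + t) ∧ ∑ t ∈ range j, a (i + t) ≤ hi) →
        lo ≤ j * τ ∧ j * τ ≤ hi := by
  have hC0 : 0 ≤ C := le_trans (abs_nonneg _) (hC 0)
  set B : ℕ → ℝ := fun N => ∑ i ∈ range N, a i with hB
  have hBN : ∀ N, |B N| ≤ N * C := by
    intro N
    calc |B N| ≤ ∑ i ∈ range N, |a i| := Finset.abs_sum_le_sum_abs _ _
      _ ≤ ∑ _i ∈ range N, C := Finset.sum_le_sum (fun i _ => hC i)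
      _ = N * C := by rw [Finset.sum_const, Finset.card_range, nsmul_eq_mul]
  have hu : ∀ N, B N / N ∈ Set.Icc (-C) C := by
    intro N
    rcases Nat.eq_zero_or_pos N with h | h
    · subst h
      simp [hC0]
    · have hN : (0 : ℝ) < N := by exact_mod_cast h
      have := abs_le.mp (hBN N)
      constructor
      · rw [le_div_iff₀ hN]; linarith [this.1]
      · rw [div_le_iff₀ hN]; linarith [this.2]
  obtain ⟨τ, _, φ, hφ, hτ⟩ := isCompact_Icc.tendsto_subseq hu
  refine ⟨τ, fun j lo hi hj => ?_⟩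
  -- the window sums
  have hwin : ∀ N : ℕ, |∑ i ∈ range N, ∑ t ∈ range j, a (i + t) - j * B N| ≤ 2 * j * j * C := by
    intro N
    have e1 : ∑ i ∈ range N, ∑ t ∈ range j, a (i + t) = ∑ t ∈ range j, (B (N + t) - B t) := by
      rw [Finset.sum_comm]
      apply Finset.sum_congr rfl
      intro t _
      have : B (N + t) = B t + ∑ i ∈ range N, a (i + t) := by
        rw [hB]
        show ∑ i ∈ range (N + t), a i = ∑ i ∈ range t, a i + _
        rw [Nat.add_comm N t, Finset.sum_range_add]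
        congr 1
        apply Finset.sum_congr rfl
        intro i _
        rw [Nat.add_comm]
      rw [this]; ring
    have e2 : (j : ℝ) * B N = ∑ _t ∈ range j, B N := by
      rw [Finset.sum_const, Finset.card_range, nsmul_eq_mul]
    rw [e1, e2, ← Finset.sum_sub_distrib]
    refine le_trans (Finset.abs_sum_le_sum_abs _ _) ?_
    have : ∀ t ∈ range j, |B (N + t) - B t - B N| ≤ 2 * j * C := by
      intro t ht
      have htj : (t : ℝ) ≤ j := by exact_mod_cast (Finset.mem_range.mp ht).le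
      have e3 : B (N + t) = B N + ∑ i ∈ range t, a (N + i) := by
        rw [hB]
        show ∑ i ∈ range (N + t), a i = ∑ i ∈ range N, a i + _
        rw [Finset.sum_range_add]
      have h4 : |∑ i ∈ range t, a (N + i)| ≤ t * C := by
        calc |∑ i ∈ range t, a (N + i)| ≤ ∑ i ∈ range t, |a (N + i)| :=
              Finset.abs_sum_le_sum_abs _ _
          _ ≤ ∑ _i ∈ range t, C := Finset.sum_le_sum (fun i _ => hC _)
          _ = t * C := by rw [Finset.sum_const, Finset.card_range, nsmul_eq_mul]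
      have h5 : B (N + t) - B t - B N = ∑ i ∈ range t, a (N + i) - B t := by
        rw [e3]; ring
      rw [h5]
      calc |∑ i ∈ range t, a (N + i) - B t| ≤ |∑ i ∈ range t, a (N + i)| + |B t| := abs_sub _ _
        _ ≤ t * C + t * C := add_le_add h4 (hBN t)
        _ ≤ 2 * j * C := by nlinarith
    calc ∑ t ∈ range j, |B (N + t) - B t - B N| ≤ ∑ _t ∈ range j, 2 * j * C :=
          Finset.sum_le_sum this
      _ = 2 * j * j * C := by
          rw [Finset.sum_const, Finset.card_range, nsmul_eq_mul]; ring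
  have hsum : ∀ N : ℕ, N * lo ≤ ∑ i ∈ range N, ∑ t ∈ range j, a (i + t) ∧
      ∑ i ∈ range N, ∑ t ∈ range j, a (i + t) ≤ N * hi := by
    intro N
    constructor
    · calc (N : ℝ) * lo = ∑ _i ∈ range N, lo := by
            rw [Finset.sum_const, Finset.card_range, nsmul_eq_mul]
        _ ≤ _ := Finset.sum_le_sum (fun i _ => (hj i).1)
    · calc _ ≤ ∑ _i ∈ range N, hi := Finset.sum_le_sum (fun i _ => (hj i).2)
        _ = (N : ℝ) * hi := by rw [Finset.sum_const, Finset.card_range, nsmul_eq_mul]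
  -- limits along the subsequence
  have hφ' : Tendsto (fun k => (φ k : ℝ)) atTop atTop :=
    tendsto_natCast_atTop_atTop.comp hφ.tendsto_atTop
  have hT : Tendsto (fun k => (j : ℝ) * (B (φ k) / φ k)) atTop (nhds (j * τ)) :=
    (tendsto_const_nhds).mul hτ
  have hZ : Tendsto (fun k => 2 * j * j * C / (φ k : ℝ)) atTop (nhds 0) :=
    tendsto_const_nhds.div_atTop hφ'
  have hpos : ∀ᶠ k in atTop, 0 < (φ k : ℝ) := hφ'.eventually_gt_atTop 0
  constructor
  · have h1 : ∀ᶠ k in atTop, lo ≤ (j : ℝ) * (B (φ k) / φ k) + 2 * j * j * C / (φ k : ℝ) := by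
      filter_upwards [hpos] with k hk
      have hw := abs_le.mp (hwin (φ k))
      have hs := (hsum (φ k)).1
      have : (φ k : ℝ) * lo ≤ j * B (φ k) + 2 * j * j * C := by linarith [hw.2]
      have e : (j : ℝ) * (B (φ k) / φ k) + 2 * j * j * C / (φ k : ℝ) =
          (j * B (φ k) + 2 * j * j * C) / φ k := by ring
      rw [e, le_div_iff₀ hk]
      linarith
    have := le_of_tendsto_of_tendsto tendsto_const_nhds (hT.add hZ) h1
    simpa using this
  · have h1 : ∀ᶠ k in atTop, (j : ℝ) * (B (φ k) / φ k) - 2 * j * j * C / (φ k : ℝ) ≤ hi := by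
      filter_upwards [hpos] with k hk
      have hw := abs_le.mp (hwin (φ k))
      have hs := (hsum (φ k)).2
      have : j * B (φ k) - 2 * j * j * C ≤ (φ k : ℝ) * hi := by linarith [hw.1]
      have e : (j : ℝ) * (B (φ k) / φ k) - 2 * j * j * C / (φ k : ℝ) =
          (j * B (φ k) - 2 * j * j * C) / φ k := by ring
      rw [e, div_le_iff₀ hk]
      linarith
    have := le_of_tendsto_of_tendsto (hT.sub hZ) tendsto_const_nhds h1
    simpa using this

/-- The rotation attached to a proper 3-colouring. -/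
theorem exists_rotation (F : ℤ → Fin 3) (D : Set ℤ) (hpos : ∀ d ∈ D, 0 < d)
    (hF : ∀ d ∈ D, ∀ x, F (x + d) ≠ F x) :
    ∃ β : ℝ, ∀ d ∈ D, ∀ m : ℤ, 1 / 3 ≤ |(d : ℝ) * β - m| := by
  -- generator of the subgroup generated by `D`
  obtain ⟨g, hg⟩ := Int.subgroup_cyclic (AddSubgroup.closure D)
  have hgmem : g ∈ AddSubgroup.closure D := by
    rw [hg]; exact AddSubgroup.subset_closure (Set.mem_singleton g)
  have hle : AddSubgroup.closure D ≤ PS F D :=
    (AddSubgroup.closure_le _).mpr (fun d hd => PP_mem F D hF hd)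
  obtain ⟨b, ⟨C, hC⟩, hb1, hb2⟩ : PP F D |g| := by
    rcases abs_choice g with h | h
    · rw [h]; exact hle hgmem
    · rw [h]; exact (PS F D).neg_mem (hle hgmem)
  have hgmem' : |g| ∈ AddSubgroup.closure D := by
    rcases abs_choice g with h | h
    · rw [h]; exact hgmem
    · rw [h]; exact AddSubgroup.neg_mem _ hgmem
  have hdvd : ∀ d ∈ D, |g| ∣ d := by
    intro d hd
    have : d ∈ AddSubgroup.closure D := AddSubgroup.subset_closure hd
    rw [hg, AddSubgroup.mem_closure_singleton] at this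
    obtain ⟨n, hn⟩ := this
    rw [abs_dvd]
    exact ⟨n, by rw [← hn, smul_eq_mul, mul_comm]⟩
  set G : ℤ := |g| with hG
  by_cases hG0 : G = 0
  · refine ⟨0, fun d hd => ?_⟩
    exfalso
    have h1 := hdvd d hd
    rw [hG0, zero_dvd_iff] at h1
    have := hpos d hd
    omega
  have hGpos : 0 < G := lt_of_le_of_ne (abs_nonneg g) (Ne.symm hG0)
  obtain ⟨τ, hτ⟩ := exists_mean (fun i : ℕ => ((b ((i : ℤ) * G) : ℤ) : ℝ)) C (by
    intro i
    have := hC ((i : ℤ) * G)
    exact_mod_cast this)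
  refine ⟨τ / (3 * G), fun d hd m => ?_⟩
  obtain ⟨q, hq⟩ := hdvd d hd
  have hqpos : 0 < q := by
    have := hpos d hd
    rw [hq] at this
    exact (mul_pos_iff_of_pos_left hGpos).mp this
  obtain ⟨j, rfl⟩ : ∃ j : ℕ, q = j := ⟨q.toNat, (Int.toNat_of_nonneg hqpos.le).symm⟩
  -- the difference of the two lifts for `d`
  set c : ℤ → ℤ := fun x => ∑ t ∈ range j, b (x + (t : ℤ) * G) - ph F d x with hc
  have hcper : ∀ e ∈ D, ∀ x, c (x + e) = c x := by
    intro e he x
    rw [hc]
    show ∑ t ∈ range j, b (x + e + (t : ℤ) * G) - ph F d (x + e) =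
      ∑ t ∈ range j, b (x + (t : ℤ) * G) - ph F d x
    have h1 : ∑ t ∈ range j, b (x + e + (t : ℤ) * G) - ∑ t ∈ range j, b (x + (t : ℤ) * G) =
        ph F e (x + d) - ph F e x := by
      rw [← Finset.sum_sub_distrib]
      have : ∀ t ∈ range j, b (x + e + (t : ℤ) * G) - b (x + (t : ℤ) * G) =
          ph F e (x + ((t + 1 : ℕ) : ℤ) * G) - ph F e (x + (t : ℤ) * G) := by
        intro t _
        have h := hb2 e he (x + (t : ℤ) * G)
        have e1 : x + (t : ℤ) * G + e = x + e + (t : ℤ) * G := by ring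
        have e2 : x + (t : ℤ) * G + G = x + ((t + 1 : ℕ) : ℤ) * G := by push_cast; ring
        rw [e1, e2] at h
        exact h
      rw [Finset.sum_congr rfl this, Finset.sum_range_sub (fun t : ℕ => ph F e (x + (t : ℤ) * G))]
      have e3 : x + (j : ℤ) * G = x + d := by rw [hq]; ring
      rw [e3]
      simp
    have h2 := ph_cycle F D hF hd he x
    linarith
  have hcG : ∀ x, c (x + G) = c x := by
    have hsub : AddSubgroup.closure D ≤
        ({ carrier := {n | ∀ x, c (x + n) = c x}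
           add_mem' := by
             intro m n hm hn x
             have : x + (m + n) = x + m + n := by ring
             rw [this, hn, hm]
           zero_mem' := by intro x; simp
           neg_mem' := by
             intro n hn x
             have := hn (x + -n)
             rw [neg_add_cancel_right] at this
             exact this.symm } : AddSubgroup ℤ) :=
      (AddSubgroup.closure_le _).mpr (fun e he x => hcper e he x)
    exact hsub hgmem'
  have hcconst : ∀ i : ℕ, c ((i : ℤ) * G) = c 0 := by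
    intro i
    induction i with
    | zero => simp
    | succ i ih =>
      have : ((i + 1 : ℕ) : ℤ) * G = (i : ℤ) * G + G := by push_cast; ring
      rw [this, hcG, ih]
  have hc3 : (3 : ℤ) ∣ c 0 := by
    have h1 : ∀ k : ℕ, (3 : ℤ) ∣ ∑ t ∈ range k, b ((t : ℤ) * G) -
        (((F ((k : ℤ) * G)).val : ℤ) - ((F 0).val : ℤ)) := by
      intro k
      induction k with
      | zero => simp
      | succ k ih =>
        rw [Finset.sum_range_succ]
        have h := hb1 ((k : ℤ) * G)
        have e1 : (k : ℤ) * G + G = ((k + 1 : ℕ) : ℤ) * G := by push_cast; ring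
        rw [e1] at h
        have e2 : ∑ t ∈ range k, b ((t : ℤ) * G) + b ((k : ℤ) * G) -
            (((F (((k + 1 : ℕ) : ℤ) * G)).val : ℤ) - ((F 0).val : ℤ)) =
            (∑ t ∈ range k, b ((t : ℤ) * G) - (((F ((k : ℤ) * G)).val : ℤ) - ((F 0).val : ℤ))) +
            (b ((k : ℤ) * G) -
              (((F (((k + 1 : ℕ) : ℤ) * G)).val : ℤ) - ((F ((k : ℤ) * G)).val : ℤ))) := by ring
        rw [e2]
        exact dvd_add ih h
    have h2 := h1 j
    have h3 := ph_mod F d 0
    rw [zero_add] at h3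
    have e1 : (j : ℤ) * G = d := by rw [hq]; ring
    rw [e1] at h2
    have e2 : c 0 = ∑ t ∈ range j, b ((t : ℤ) * G) - ph F d 0 := by
      rw [hc]; simp
    rw [e2]
    have e3 : ∑ t ∈ range j, b ((t : ℤ) * G) - ph F d 0 =
        (∑ t ∈ range j, b ((t : ℤ) * G) - (((F d).val : ℤ) - ((F 0).val : ℤ))) -
        (ph F d 0 - (((F d).val : ℤ) - ((F 0).val : ℤ))) := by ring
    rw [e3]
    exact dvd_sub h2 h3
  obtain ⟨l, hl⟩ := hc3
  have hwin := hτ j ((3 * l : ℤ) + 1) ((3 * l : ℤ) + 2) (by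
    intro i
    have h1 : ∑ t ∈ range j, ((b (((i + t : ℕ) : ℤ) * G) : ℤ) : ℝ) =
        ((3 * l + ph F d ((i : ℤ) * G) : ℤ) : ℝ) := by
      rw [← Int.cast_sum]
      congr 1
      have h2 := hcconst i
      rw [hl] at h2
      have h3 : c ((i : ℤ) * G) =
          ∑ t ∈ range j, b (((i + t : ℕ) : ℤ) * G) - ph F d ((i : ℤ) * G) := by
        rw [hc]
        show ∑ t ∈ range j, b ((i : ℤ) * G + (t : ℤ) * G) - ph F d ((i : ℤ) * G) = _
        congr 1
        apply Finset.sum_congr rfl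
        intro t _
        congr 1
        push_cast; ring
      linarith
    have h4 := ph_bounds F d ((i : ℤ) * G) (hF d hd _)
    show _ ≤ ∑ t ∈ range j, ((b (((i + t : ℕ) : ℤ) * G) : ℤ) : ℝ) ∧
      ∑ t ∈ range j, ((b (((i + t : ℕ) : ℤ) * G) : ℤ) : ℝ) ≤ _
    rw [h1]
    constructor
    · have : ((1 : ℤ) : ℝ) ≤ ((ph F d ((i : ℤ) * G) : ℤ) : ℝ) := by exact_mod_cast h4.1
      push_cast at this ⊢
      linarith
    · have : ((ph F d ((i : ℤ) * G) : ℤ) : ℝ) ≤ ((2 : ℤ) : ℝ) := by exact_mod_cast h4.2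
      push_cast at this ⊢
      linarith)
  -- conclusion
  have hGR : (0 : ℝ) < G := by exact_mod_cast hGpos
  have e1 : (d : ℝ) * (τ / (3 * G)) = j * τ / 3 := by
    rw [hq]
    push_cast
    field_simp
  rw [e1]
  obtain ⟨h5, h6⟩ := hwin
  push_cast at h5 h6
  rcases le_or_gt m l with hml | hml
  · have : (m : ℝ) ≤ l := by exact_mod_cast hml
    rw [le_abs]
    left
    linarith
  · have : (l : ℝ) + 1 ≤ m := by exact_mod_cast hml
    rw [le_abs]
    right
    linarith

/-- passing from the positive integers to all integers -/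
theorem exists_int_colouring (A : Set ℕ) (f : ℕ → Fin 3)
    (hf : ∀ a d : ℕ, 0 < a → d ∈ A → f (a + d) ≠ f a) :
    ∃ F : ℤ → Fin 3, ∀ d ∈ A, ∀ x : ℤ, F (x + (d : ℤ)) ≠ F x := by
  have hex : ∀ z : ℤ, ∃ c : Fin 3, ∀ᶠ n : ℕ in (hyperfilter ℕ : Filter ℕ),
      f (((n : ℤ) + z).toNat) = c := by
    intro z
    by_contra hcon
    push Not at hcon
    have h0 := hcon 0
    have h1 := hcon 1
    have h2 := hcon 2
    have : ∀ᶠ n : ℕ in (hyperfilter ℕ : Filter ℕ), False := by
      filter_upwards [h0, h1, h2] with n a0 a1 a2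
      generalize f (((n : ℤ) + z).toNat) = y at a0 a1 a2
      fin_cases y
      · exact a0 rfl
      · exact a1 rfl
      · exact a2 rfl
    exact (this.exists).elim (fun _ h => h)
  choose F hF using hex
  refine ⟨F, fun d hd x hx => ?_⟩
  have hlarge : ∀ᶠ n : ℕ in (hyperfilter ℕ : Filter ℕ), x.natAbs < n := by
    have : ∀ᶠ n : ℕ in atTop, x.natAbs < n := eventually_gt_atTop _
    exact Nat.hyperfilter_le_atTop this
  obtain ⟨n, h1, h2, h3⟩ := ((hF (x + d)).and ((hF x).and hlarge)).exists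
  have hn : 0 < (n : ℤ) + x := by omega
  have e : ((n : ℤ) + (x + d)).toNat = ((n : ℤ) + x).toNat + d := by omega
  rw [e] at h1
  apply hf ((n : ℤ) + x).toNat d (by omega) hd
  rw [h1, h2, hx]

/-- points of the circle in the same half are at distance less than `1/2` -/
lemma same_half {p q : ℝ}
    (h : (Int.fract p < 1 / 2 ∧ Int.fract q < 1 / 2) ∨ (¬ Int.fract p < 1 / 2 ∧ ¬ Int.fract q < 1 / 2)) :
    |Int.fract q - Int.fract p| < 1 / 2 := by
  have h1 := Int.fract_nonneg p
  have h2 := Int.fract_lt_one p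
  have h3 := Int.fract_nonneg q
  have h4 := Int.fract_lt_one q
  rw [abs_lt]
  rcases h with ⟨a, b⟩ | ⟨a, b⟩
  · constructor <;> linarith
  · push Not at a b
    constructor <;> linarith

/-- the half circle colouring -/
noncomputable def half (β : ℝ) (x : ℕ) : Fin 2 := if Int.fract ((x : ℝ) * β) < 1 / 2 then 0 else 1

lemma half_eq {β : ℝ} {x y : ℕ} (h : half β x = half β y) :
    |Int.fract ((y : ℝ) * β) - Int.fract ((x : ℝ) * β)| < 1 / 2 := by
  apply same_half
  unfold half at h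
  by_cases h1 : Int.fract ((x : ℝ) * β) < 1 / 2
  · by_cases h2 : Int.fract ((y : ℝ) * β) < 1 / 2
    · exact Or.inl ⟨h1, h2⟩
    · rw [if_pos h1, if_neg h2] at h
      exact absurd h (by decide)
  · by_cases h2 : Int.fract ((y : ℝ) * β) < 1 / 2
    · rw [if_neg h1, if_pos h2] at h
      exact absurd h (by decide)
    · exact Or.inr ⟨h1, h2⟩

theorem half_no_ap (β : ℝ) (a d : ℕ) (hd : ∀ m : ℤ, 1 / 4 ≤ |(d : ℝ) * β - m|) :
    ¬ ∀ i < 3, half β (a + i * d) = half β a := by
  intro h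
  have h1 := h 1 (by norm_num)
  have h2 := h 2 (by norm_num)
  rw [one_mul] at h1
  have d1 := half_eq h1.symm
  have d2 : |Int.fract (((a + 2 * d : ℕ) : ℝ) * β) - Int.fract (((a + d : ℕ) : ℝ) * β)| < 1 / 2 :=
    half_eq (h1.trans h2.symm)
  have d3 := half_eq h2.symm
  set s : ℝ := (d : ℝ) * β with hs
  set k1 : ℤ := ⌊((a + d : ℕ) : ℝ) * β⌋ - ⌊(a : ℝ) * β⌋ with hk1
  set k2 : ℤ := ⌊((a + 2 * d : ℕ) : ℝ) * β⌋ - ⌊((a + d : ℕ) : ℝ) * β⌋ with hk2
  have e1 : Int.fract (((a + d : ℕ) : ℝ) * β) - Int.fract ((a : ℝ) * β) = s - k1 := by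
    rw [← Int.self_sub_floor, ← Int.self_sub_floor, hk1, hs]
    push_cast
    ring
  have e2 : Int.fract (((a + 2 * d : ℕ) : ℝ) * β) - Int.fract (((a + d : ℕ) : ℝ) * β) = s - k2 := by
    rw [← Int.self_sub_floor, ← Int.self_sub_floor, hk2, hs]
    push_cast
    ring
  rw [e1] at d1
  rw [e2] at d2
  have e3 : Int.fract (((a + 2 * d : ℕ) : ℝ) * β) - Int.fract ((a : ℝ) * β) =
      (s - k1) + (s - k2) := by rw [← e1, ← e2]; ring
  rw [e3] at d3
  have hk : k1 = k2 := by
    have a1 := abs_lt.mp d1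
    have a2 := abs_lt.mp d2
    have b1 : ((k1 - k2 : ℤ) : ℝ) < 1 := by push_cast; linarith
    have b2 : (-1 : ℝ) < ((k1 - k2 : ℤ) : ℝ) := by push_cast; linarith
    have c1 : k1 - k2 < 1 := by exact_mod_cast b1
    have c2 : -1 < k1 - k2 := by exact_mod_cast b2
    omega
  rw [← hk] at d3
  have h4 := hd k1
  have a3 := abs_lt.mp d3
  rcases le_abs.mp h4 with h5 | h5
  · linarith [a3.2]
  · linarith [a3.1]

end Pool.Agent.H19.LargeThree
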